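import Pool.Agent.W601.RP.Stm2

set_option autoImplicit false
open scoped Classical
open Filter Topology

namespace Pool.Agent.W85.RP.Pre

open Pool.Agent.W601.RP

/-- A subgroup of a compact topological abelian group is precompact. -/
theorem precGen {X : Type*} [AddCommGroup X] [TopologicalSpace X] [IsTopologicalAddGroup X]
    [CompactSpace X] (G : AddSubgroup X) :
    ∀ U ∈ 𝓝 (0 : ↥G), ∃ F : Finset ↥G, ∀ g : ↥G, ∃ f ∈ F, ∃ u ∈ U, g = f + u := by
  intro U hU
  rw [nhds_subtype_eq_comap, Filter.mem_comap] at hU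
  obtain ⟨V, hV, hVU⟩ := hU
  have hsub : ∃ W ∈ 𝓝 (0 : X), ∀ a ∈ W, ∀ b ∈ W, a - b ∈ V := by
    have hc : Tendsto (fun p : X × X => p.1 - p.2) (𝓝 ((0 : X), (0 : X))) (𝓝 (0 : X)) := by
      have h := (continuous_fst.sub continuous_snd : Continuous (fun p : X × X => p.1 - p.2)).tendsto
        ((0 : X), (0 : X))
      have e : (Prod.fst - Prod.snd : X × X → X) ((0 : X), (0 : X)) = 0 := sub_zero 0
      rw [e] at h
      exact h
    have h2 := hc hV
    rw [Filter.mem_map, nhds_prod_eq] at h2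
    obtain ⟨A, hA, B, hB, hAB⟩ := Filter.mem_prod_iff.1 h2
    refine ⟨A ∩ B, Filter.inter_mem hA hB, fun a ha b hb => ?_⟩
    exact hAB (Set.mk_mem_prod ha.1 hb.2)
  obtain ⟨W, hW, hWV⟩ := hsub
  have hnh : ∀ x : X, (fun y : X => y - x) ⁻¹' W ∈ 𝓝 x := by
    intro x
    have hc : Continuous (fun y : X => y - x) := continuous_id.sub continuous_const
    apply hc.continuousAt.preimage_mem_nhds
    simpa using hW
  obtain ⟨T, -, hT⟩ := (isCompact_univ (X := X)).elim_nhds_subcover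
    (fun x => (fun y : X => y - x) ⁻¹' W) (fun x _ => hnh x)
  let ch : X → ↥G := fun x => if h : ∃ f : ↥G, (f : X) - x ∈ W then h.choose else 0
  refine ⟨T.image ch, fun g => ?_⟩
  have hg : (g : X) ∈ ⋃ x ∈ T, (fun y : X => y - x) ⁻¹' W := hT (Set.mem_univ _)
  rw [Set.mem_iUnion₂] at hg
  obtain ⟨x, hxT, hx⟩ := hg
  have hx' : (g : X) - x ∈ W := hx
  have hex : ∃ f : ↥G, (f : X) - x ∈ W := ⟨g, hx'⟩
  have hch : ((ch x : ↥G) : X) - x ∈ W := by
    have : ch x = hex.choose := dif_pos hex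
    rw [this]
    exact hex.choose_spec
  refine ⟨ch x, Finset.mem_image_of_mem _ hxT, g - ch x, hVU ?_, by abel⟩
  have h3 := hWV _ hx' _ hch
  rw [Set.mem_preimage]
  have : ((g - ch x : ↥G) : X) = ((g : X) - x) - ((ch x : X) - x) := by
    rw [AddSubgroup.coe_sub]; abel
  rw [this]
  exact h3

theorem prec : S_PRE := precGen GS

end Pool.Agent.W85.RP.Pre
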